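import Pool.Agent.K4H65.EM.Spec

set_option autoImplicit false

namespace Pool.Agent.K4H65.EM

open Finset

theorem pow_filter53 {α : Type*} (s : Finset α) (p : α → Prop) [DecidablePred p] :
    (2 : ℝ) ^ (s.filter p).card = ∏ x ∈ s, (1 + if p x then (1 : ℝ) else 0) := by
  classical
  induction s using Finset.induction_on with
  | empty => simp
  | insert a s ha ih =>
    rw [Finset.filter_insert, Finset.prod_insert ha, ← ih]
    by_cases h : p a
    · rw [if_pos h, if_pos h, Finset.card_insert_of_notMem (by simp [ha]), pow_succ]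
      ring
    · rw [if_neg h, if_neg h]
      ring

theorem t2a : S_T2a := by
  classical
  intro n m W g hg hW
  let e : Fin n → Fin n → Fin n × Fin n := fun v x => (min v x, max v x)
  let I : Finset (Fin m × Fin n) := univ ×ˢ W
  let C : Finset (Fin m × Fin n) → Finset (Fin n × Fin n) := fun Z =>
    (Z ×ˢ (univ : Finset (Fin 2))).image (fun q => e (g (q.1.1, q.2)) q.1.2)
  have he : ∀ v v' x x' : Fin n, v ∉ W → v' ∉ W → x ∈ W → x' ∈ W → e v x = e v' x' → v = v' ∧ x = x' := by
    intro v v' x x' hv hv' hx hx' h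
    simp only [e, Prod.mk.injEq] at h
    have n1 : v ≠ x' := fun h => hv (h ▸ hx')
    have n2 : v' ≠ x := fun h => hv' (h ▸ hx)
    rcases le_total v x with h1 | h1 <;> rcases le_total v' x' with h2 | h2
    · rw [min_eq_left h1, min_eq_left h2, max_eq_right h1, max_eq_right h2] at h
      exact h
    · rw [min_eq_left h1, min_eq_right h2] at h
      exact absurd h.1 n1
    · rw [min_eq_right h1, min_eq_left h2] at h
      exact absurd h.1.symm n2
    · rw [min_eq_right h1, min_eq_right h2, max_eq_left h1, max_eq_left h2] at h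
      exact ⟨h.2, h.1⟩
  have hcard : ∀ Z ∈ I.powerset, (C Z).card = 2 * Z.card := by
    intro Z hZ
    rw [Finset.mem_powerset] at hZ
    simp only [C]
    rw [Finset.card_image_of_injOn, Finset.card_product]
    · simp [mul_comm]
    · intro q hq q' hq' h
      have hq1 := hZ (Finset.mem_product.1 hq).1
      have hq1' := hZ (Finset.mem_product.1 hq').1
      simp only [I, Finset.mem_product] at hq1 hq1'
      obtain ⟨h1, h2⟩ := he _ _ _ _ (hW _) (hW _) hq1.2 hq1'.2 h
      have h3 := hg h1
      simp only [Prod.mk.injEq] at h3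
      exact Prod.ext (Prod.ext h3.1 h2) h3.2
  have hpow : ∀ ω : Fin n × Fin n → Fin 1024,
      (2 : ℝ) ^ (∑ j : Fin m, cn (gr ω) W (g (j, 0)) (g (j, 1))) =
      ∑ Z ∈ I.powerset, ∏ c, (if c ∈ C Z then (if ω c = 0 then (1 : ℝ) else 0) else 1) := by
    intro ω
    rw [← Finset.prod_pow_eq_pow_sum]
    have h1 : ∀ j : Fin m, (2 : ℝ) ^ cn (gr ω) W (g (j, 0)) (g (j, 1)) =
        ∏ x ∈ W, (1 + if (∀ b : Fin 2, ω (e (g (j, b)) x) = 0) then (1 : ℝ) else 0) := by
      intro j
      rw [cn, pow_filter53]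
      refine Finset.prod_congr rfl fun x hx => ?_
      congr 1
      have n0 : g (j, 0) ≠ x := fun h => hW (j, 0) (h ▸ hx)
      have n1 : g (j, 1) ≠ x := fun h => hW (j, 1) (h ▸ hx)
      have hiff : ((gr ω).Adj (g (j, 0)) x ∧ (gr ω).Adj (g (j, 1)) x) ↔
          ∀ b : Fin 2, ω (e (g (j, b)) x) = 0 := by
        simp only [gr, Fin.forall_fin_two, e]
        tauto
      by_cases h : ∀ b : Fin 2, ω (e (g (j, b)) x) = 0
      · rw [if_pos (hiff.2 h), if_pos h]
      · rw [if_neg (fun h' => h (hiff.1 h')), if_neg h]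
    rw [Finset.prod_congr rfl (fun j _ => h1 j), ← Finset.prod_product' (univ : Finset (Fin m)) W
      (fun j x => (1 + if (∀ b : Fin 2, ω (e (g (j, b)) x) = 0) then (1 : ℝ) else 0)), Finset.prod_one_add]
    refine Finset.sum_congr rfl fun Z hZ => ?_
    have h2 : ∀ c : Fin n × Fin n, (if c ∈ C Z then (if ω c = 0 then (1 : ℝ) else 0) else 1) =
        if (c ∈ C Z → ω c = 0) then 1 else 0 := by
      intro c
      by_cases h3 : c ∈ C Z <;> by_cases h4 : ω c = 0 <;> simp [h3, h4]
    rw [Finset.prod_congr rfl (fun c _ => h2 c), Finset.prod_boole, Finset.prod_boole]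
    have h5 : (∀ i ∈ Z, ∀ b : Fin 2, ω (e (g (i.1, b)) i.2) = 0) ↔
        ∀ c ∈ (univ : Finset (Fin n × Fin n)), c ∈ C Z → ω c = 0 := by
      constructor
      · intro h c _ hc
        simp only [C, Finset.mem_image, Finset.mem_product, Finset.mem_univ, and_true] at hc
        obtain ⟨q, hq, rfl⟩ := hc
        exact h _ hq _
      · intro h i hi b
        refine h _ (Finset.mem_univ _) ?_
        simp only [C, Finset.mem_image, Finset.mem_product, Finset.mem_univ, and_true]
        exact ⟨(i, b), hi, rfl⟩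
    by_cases h : ∀ i ∈ Z, ∀ b : Fin 2, ω (e (g (i.1, b)) i.2) = 0
    · rw [if_pos h, if_pos (h5.1 h)]
    · rw [if_neg h, if_neg (fun h' => h (h5.2 h'))]
  rw [Finset.sum_congr rfl (fun ω _ => hpow ω), Finset.sum_comm]
  have hZ : ∀ Z ∈ I.powerset, ∑ ω : Fin n × Fin n → Fin 1024,
      ∏ c, (if c ∈ C Z then (if ω c = 0 then (1 : ℝ) else 0) else 1) =
      1024 ^ (n * n) * (1 / 1024 ^ 2) ^ Z.card := by
    intro Z hZ
    have h1 := Finset.prod_univ_sum (fun _ : Fin n × Fin n => (univ : Finset (Fin 1024)))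
      (fun c a => (if c ∈ C Z then (if a = 0 then (1 : ℝ) else 0) else 1))
    rw [Fintype.piFinset_univ] at h1
    rw [← h1]
    have h2 : ∀ c : Fin n × Fin n, ∑ a : Fin 1024, (if c ∈ C Z then (if a = 0 then (1 : ℝ) else 0) else 1) =
        1024 * (if c ∈ C Z then 1 / 1024 else 1) := by
      intro c
      by_cases h3 : c ∈ C Z
      · simp [h3]
      · simp [h3]
    rw [Finset.prod_congr rfl (fun c _ => h2 c), Finset.prod_mul_distrib, Finset.prod_const,
      Finset.prod_ite_mem, Finset.univ_inter, Finset.prod_const, hcard Z hZ, pow_mul]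
    simp
  rw [Finset.sum_congr rfl hZ, ← Finset.mul_sum]
  congr 1
  have h6 := Finset.prod_one_add (s := I) (f := fun _ => (1 / 1024 ^ 2 : ℝ))
  simp only [Finset.prod_const] at h6
  rw [← h6]
  simp [I]

end Pool.Agent.K4H65.EM
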