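import Mathlib

/-!
Second derivatives of logarithms of sums of squares of holomorphic functions along lines.
-/

set_option autoImplicit false

open Set Filter Topology Metric
open scoped ComplexConjugate

namespace Pool.Agent.K4H53

/-- derivative along the line of direction `θ` -/
theorem hasDerivAt_line {F : ℂ → ℂ} {θ : ℂ} {s : ℝ} (hF : DifferentiableAt ℂ F (s * θ)) :
    HasDerivAt (fun t : ℝ => F (t * θ)) (deriv F (s * θ) * θ) s := by
  have h1 : HasDerivAt (fun t : ℝ => (t : ℂ) * θ) (1 * θ) s :=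
    (Complex.ofRealCLM.hasDerivAt (x := s)).mul_const θ
  rw [one_mul] at h1
  exact hF.hasDerivAt.comp s h1

theorem hasDerivAt_nsq {G : ℝ → ℂ} {G' : ℂ} {s : ℝ} (hG : HasDerivAt G G' s) :
    HasDerivAt (fun t => ‖G t‖ ^ 2) (2 * (G' * conj (G s)).re) s := by
  have h1 := hG.norm_sq
  have e : inner ℝ (G s) G' = (G' * conj (G s)).re := by
    rw [Complex.inner, mul_comm]
  rw [e] at h1
  exact h1

/-- first and second derivative of `log (1 + |F₁|² + |F₂|²)` along a line -/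
theorem second_deriv {F : Fin 2 → ℂ → ℂ} {r : ℝ} (hr : 0 < r) {θ : ℂ} (hθ : ‖θ‖ = 1)
    (hF : ∀ i, DifferentiableOn ℂ (F i) (ball 0 r)) :
    iteratedDeriv 2 (fun s : ℝ => Real.log (1 + ∑ i, ‖F i (s * θ)‖ ^ 2)) 0 =
      (∑ i, 2 * (‖deriv (F i) 0‖ ^ 2 + (deriv (deriv (F i)) 0 * θ ^ 2 * conj (F i 0)).re)) /
        (1 + ∑ i, ‖F i 0‖ ^ 2) -
      (∑ i, 2 * (deriv (F i) 0 * θ * conj (F i 0)).re) ^ 2 / (1 + ∑ i, ‖F i 0‖ ^ 2) ^ 2 := by
  have hmem : ∀ s : ℝ, |s| < r → (s : ℂ) * θ ∈ ball (0 : ℂ) r := by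
    intro s hs
    rw [mem_ball_zero_iff, norm_mul, hθ, mul_one, Complex.norm_real]
    exact hs
  have hd : ∀ i (s : ℝ), |s| < r → DifferentiableAt ℂ (F i) (s * θ) := fun i s hs =>
    (hF i).differentiableAt (isOpen_ball.mem_nhds (hmem s hs))
  have hd2 : ∀ i (s : ℝ), |s| < r → DifferentiableAt ℂ (deriv (F i)) (s * θ) := fun i s hs =>
    ((hF i).deriv isOpen_ball).differentiableAt (isOpen_ball.mem_nhds (hmem s hs))
  have hN : ∀ s : ℝ, (0:ℝ) < 1 + ∑ i, ‖F i (s * θ)‖ ^ 2 := fun s => by positivity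
  have h1 : ∀ s : ℝ, |s| < r → HasDerivAt (fun t : ℝ => 1 + ∑ i, ‖F i (t * θ)‖ ^ 2)
      (∑ i, 2 * (deriv (F i) (s * θ) * θ * conj (F i (s * θ))).re) s := by
    intro s hs
    have := HasDerivAt.fun_sum (u := Finset.univ) (fun i _ => hasDerivAt_nsq (hasDerivAt_line (hd i s hs)))
    exact this.const_add 1
  have h2 : deriv (fun t : ℝ => Real.log (1 + ∑ i, ‖F i (t * θ)‖ ^ 2)) =ᶠ[𝓝 0]
      ((fun s : ℝ => ∑ i, 2 * (deriv (F i) (s * θ) * θ * conj (F i (s * θ))).re) /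
        fun s : ℝ => 1 + ∑ i, ‖F i (s * θ)‖ ^ 2) := by
    have : ∀ᶠ s : ℝ in 𝓝 0, |s| < r := by
      have := (continuous_abs (G := ℝ)).tendsto 0
      rw [abs_zero] at this
      exact this.eventually (gt_mem_nhds hr)
    filter_upwards [this] with s hs
    exact ((h1 s hs).log (hN s).ne').deriv
  have h3 : HasDerivAt (fun s : ℝ => ∑ i, 2 * (deriv (F i) (s * θ) * θ * conj (F i (s * θ))).re)
      (∑ i, 2 * (‖deriv (F i) 0‖ ^ 2 + (deriv (deriv (F i)) 0 * θ ^ 2 * conj (F i 0)).re)) 0 := by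
    apply HasDerivAt.fun_sum
    intro i _
    apply HasDerivAt.const_mul
    have e1 := hasDerivAt_line (hd i 0 (by simpa using hr))
    have e2 := hasDerivAt_line (hd2 i 0 (by simpa using hr))
    have e3 : HasDerivAt (fun s : ℝ => conj (F i (s * θ))) (conj (deriv (F i) ((0:ℝ) * θ) * θ)) 0 :=
      (Complex.conjCLE.toContinuousLinearMap.hasFDerivAt).comp_hasDerivAt (0:ℝ) e1
    have e4 := (e2.mul_const θ).mul e3
    have e5 := (Complex.reCLM.hasFDerivAt).comp_hasDerivAt (0:ℝ) e4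
    refine e5.congr_deriv ?_
    simp only [Complex.ofReal_zero, zero_mul, Complex.reCLM_apply]
    have e6 : deriv (F i) 0 * θ * conj (deriv (F i) 0 * θ) = ((‖deriv (F i) 0‖ ^ 2 : ℝ) : ℂ) := by
      rw [Complex.mul_conj, Complex.normSq_eq_norm_sq, norm_mul, hθ, mul_one]
    rw [e6, Complex.add_re, Complex.ofReal_re, add_comm]
    congr 2
    ring
  have h4 := h3.div (h1 0 (by simpa using hr)) (hN 0).ne'
  rw [iteratedDeriv_succ, iteratedDeriv_one, h2.deriv_eq]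
  refine h4.deriv.trans ?_
  have e0 : ((0:ℝ) : ℂ) * θ = 0 := by simp
  simp only [e0]
  have hN0 := hN 0
  simp only [e0] at hN0
  have key : ∀ A B N : ℝ, 0 < N → (A * N - B * B) / N ^ 2 = A / N - B ^ 2 / N ^ 2 := by
    intro A B N hN
    field_simp
  exact key _ _ _ hN0

/-- positivity of the Laplacian of `log (1 + |F₁|² + |F₂|²)` -/
theorem lap_pos {F : Fin 2 → ℂ → ℂ} {r : ℝ} (hr : 0 < r)
    (hF : ∀ i, DifferentiableOn ℂ (F i) (ball 0 r)) (hne : ∃ i, deriv (F i) 0 ≠ 0) :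
    0 < iteratedDeriv 2 (fun s : ℝ => Real.log (1 + ∑ i, ‖F i s‖ ^ 2)) 0 +
      iteratedDeriv 2 (fun s : ℝ => Real.log (1 + ∑ i, ‖F i (s * Complex.I)‖ ^ 2)) 0 := by
  have e1 := second_deriv hr (θ := 1) (by simp) hF
  have e2 := second_deriv hr (θ := Complex.I) (by simp) hF
  simp only [mul_one, one_pow] at e1
  rw [e1, e2]
  simp only [Fin.sum_univ_two, Complex.I_sq]
  set a := deriv (F 0) 0
  set b := deriv (F 1) 0
  set u := F 0 0
  set v := F 1 0
  set p := deriv (deriv (F 0)) 0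
  set q := deriv (deriv (F 1)) 0
  have hN : 0 < 1 + (‖u‖ ^ 2 + ‖v‖ ^ 2) := by positivity
  have hab : 0 < ‖a‖ ^ 2 + ‖b‖ ^ 2 := by
    obtain ⟨i, hi⟩ := hne
    fin_cases i
    · have : 0 < ‖a‖ := norm_pos_iff.2 hi
      positivity
    · have : 0 < ‖b‖ := norm_pos_iff.2 hi
      positivity
  have hns : ∀ z : ℂ, ‖z‖ ^ 2 = z.re ^ 2 + z.im ^ 2 := by
    intro z
    rw [← Complex.normSq_eq_norm_sq, Complex.normSq_apply]
    ring
  have hsum : (2 * (‖a‖ ^ 2 + (p * conj u).re) + 2 * (‖b‖ ^ 2 + (q * conj v).re)) /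
        (1 + (‖u‖ ^ 2 + ‖v‖ ^ 2)) -
        (2 * (a * conj u).re + 2 * (b * conj v).re) ^ 2 / (1 + (‖u‖ ^ 2 + ‖v‖ ^ 2)) ^ 2 +
      ((2 * (‖a‖ ^ 2 + (p * -1 * conj u).re) + 2 * (‖b‖ ^ 2 + (q * -1 * conj v).re)) /
        (1 + (‖u‖ ^ 2 + ‖v‖ ^ 2)) -
        (2 * (a * Complex.I * conj u).re + 2 * (b * Complex.I * conj v).re) ^ 2 /
          (1 + (‖u‖ ^ 2 + ‖v‖ ^ 2)) ^ 2) =
      4 * ((‖a‖ ^ 2 + ‖b‖ ^ 2) * (1 + (‖u‖ ^ 2 + ‖v‖ ^ 2)) -
        ‖a * conj u + b * conj v‖ ^ 2) / (1 + (‖u‖ ^ 2 + ‖v‖ ^ 2)) ^ 2 := by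
    rw [hns (a * conj u + b * conj v)]
    field_simp
    simp only [Complex.add_re, Complex.add_im, Complex.mul_re, Complex.mul_im, Complex.conj_re,
      Complex.conj_im, Complex.I_re, Complex.I_im, Complex.neg_re]
    ring
  rw [hsum]
  apply div_pos _ (by positivity)
  have hcs : ‖a * conj u + b * conj v‖ ^ 2 ≤ (‖a‖ ^ 2 + ‖b‖ ^ 2) * (‖u‖ ^ 2 + ‖v‖ ^ 2) := by
    have h1 : ‖a * conj u + b * conj v‖ ≤ ‖a‖ * ‖u‖ + ‖b‖ * ‖v‖ := by
      refine (norm_add_le _ _).trans ?_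
      rw [norm_mul, norm_mul, RCLike.norm_conj, RCLike.norm_conj]
    have h2 : ‖a * conj u + b * conj v‖ ^ 2 ≤ (‖a‖ * ‖u‖ + ‖b‖ * ‖v‖) ^ 2 :=
      pow_le_pow_left₀ (norm_nonneg _) h1 2
    nlinarith [sq_nonneg (‖a‖ * ‖v‖ - ‖b‖ * ‖u‖)]
  nlinarith

/-- the logarithm of the absolute value of a zero-free holomorphic function -/
theorem lap_zero {H : ℂ → ℂ} {r : ℝ} (hr : 0 < r) (hH : DifferentiableOn ℂ H (ball 0 r))
    (hne : ∀ z ∈ ball (0:ℂ) r, H z ≠ 0) {u : ℂ → ℝ}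
    (hu : ∀ z ∈ ball (0:ℂ) r, u z = Real.log (‖H z‖ ^ 2)) :
    iteratedDeriv 2 (fun s : ℝ => u s) 0 + iteratedDeriv 2 (fun s : ℝ => u (s * Complex.I)) 0 = 0 := by
  set K : ℂ → ℂ := fun z => deriv H z / H z with hK
  have hKd : DifferentiableOn ℂ K (ball 0 r) := (hH.deriv isOpen_ball).div hH hne
  have main : ∀ θ : ℂ, ‖θ‖ = 1 → iteratedDeriv 2 (fun s : ℝ => u (s * θ)) 0 =
      2 * (deriv K 0 * θ ^ 2).re := by
    intro θ hθ
    have hmem : ∀ s : ℝ, |s| < r → (s : ℂ) * θ ∈ ball (0 : ℂ) r := by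
      intro s hs
      rw [mem_ball_zero_iff, norm_mul, hθ, mul_one, Complex.norm_real]
      exact hs
    have hev : ∀ᶠ s : ℝ in 𝓝 0, |s| < r := by
      have := (continuous_abs (G := ℝ)).tendsto 0
      rw [abs_zero] at this
      exact this.eventually (gt_mem_nhds hr)
    have h1 : ∀ s : ℝ, |s| < r → HasDerivAt (fun t : ℝ => u (t * θ)) (2 * (K (s * θ) * θ).re) s := by
      intro s hs
      have hz := hmem s hs
      have e1 := hasDerivAt_nsq (hasDerivAt_line (hH.differentiableAt (isOpen_ball.mem_nhds hz)))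
      have hpos : (0:ℝ) < ‖H (s * θ)‖ ^ 2 := by
        have : 0 < ‖H (s * θ)‖ := norm_pos_iff.2 (hne _ hz)
        positivity
      have e2 := e1.log hpos.ne'
      have e3 : (fun t : ℝ => u (t * θ)) =ᶠ[𝓝 s] fun t => Real.log (‖H (t * θ)‖ ^ 2) := by
        have : ∀ᶠ t : ℝ in 𝓝 s, |t| < r := (continuous_abs.tendsto s).eventually (gt_mem_nhds hs)
        filter_upwards [this] with t ht
        exact hu _ (hmem t ht)
      refine (e2.congr_of_eventuallyEq e3).congr_deriv ?_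
      rw [← Complex.normSq_eq_norm_sq]
      have hns : Complex.normSq (H (s * θ)) ≠ 0 := fun h => hne _ hz (Complex.normSq_eq_zero.1 h)
      have e4 : K (s * θ) * θ = (deriv H (s * θ) * θ * conj (H (s * θ))) *
          (((Complex.normSq (H (s * θ)))⁻¹ : ℝ) : ℂ) := by
        rw [hK]
        simp only
        rw [Complex.ofReal_inv, ← Complex.mul_conj]
        have h0 := hne _ hz
        have h0' : conj (H (s * θ)) ≠ 0 := (map_ne_zero _).2 h0
        field_simp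
      rw [e4, Complex.re_mul_ofReal]
      field_simp
    rw [iteratedDeriv_succ, iteratedDeriv_one]
    have h2 : deriv (fun s : ℝ => u (s * θ)) =ᶠ[𝓝 0] fun s => 2 * (K (s * θ) * θ).re := by
      filter_upwards [hev] with s hs
      exact (h1 s hs).deriv
    rw [h2.deriv_eq]
    have h0 : (((0:ℝ) : ℂ) * θ) ∈ ball (0:ℂ) r := hmem 0 (by simpa using hr)
    have e1 := hasDerivAt_line (hKd.differentiableAt (isOpen_ball.mem_nhds h0))
    have e2 := ((Complex.reCLM.hasFDerivAt).comp_hasDerivAt (0:ℝ) (e1.mul_const θ)).const_mul 2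
    refine (e2.deriv).trans ?_
    simp only [Complex.ofReal_zero, zero_mul, Complex.reCLM_apply]
    congr 2
    ring
  have m1 := main 1 (by simp)
  have m2 := main Complex.I (by simp)
  simp only [mul_one, one_pow] at m1
  rw [m1, m2, Complex.I_sq]
  simp

end Pool.Agent.K4H53
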