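import Mathlib

/-!
The complex projective plane as the set of rank one orthogonal projections of `ℂ³`.
-/

set_option autoImplicit false

open Set Filter Topology Metric
open scoped Manifold ContDiff ComplexConjugate

namespace Pool.Agent.K4H53

noncomputable section

/-- squared length -/
def nsq (v : Fin 3 → ℂ) : ℝ := ∑ l, ‖v l‖ ^ 2

theorem nsq_pos {v : Fin 3 → ℂ} (hv : v ≠ 0) : 0 < nsq v := by
  obtain ⟨i, hi⟩ := Function.ne_iff.1 hv
  have h1 : ‖v i‖ ^ 2 ≤ nsq v :=
    Finset.single_le_sum (f := fun l => ‖v l‖ ^ 2) (fun l _ => by positivity) (Finset.mem_univ i)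
  have h2 : 0 < ‖v i‖ ^ 2 := by
    have : 0 < ‖v i‖ := norm_pos_iff.2 hi
    positivity
  linarith

/-- the orthogonal projection onto the line of `v` -/
def prj (v : Fin 3 → ℂ) : Fin 3 → Fin 3 → ℂ := fun i j => v i * conj (v j) / (nsq v : ℂ)

/-- the complex projective plane, as the set of orthogonal projections onto lines of `ℂ³` -/
def P2 : Type := {A : Fin 3 → Fin 3 → ℂ // ∃ v : Fin 3 → ℂ, v ≠ 0 ∧ A = prj v}

instance : MetricSpace P2 := inferInstanceAs (MetricSpace {_A : Fin 3 → Fin 3 → ℂ // _})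

/-- the point `[v]` -/
def pt (v : Fin 3 → ℂ) (hv : v ≠ 0) : P2 := ⟨prj v, v, hv, rfl⟩

theorem continuous_nsq : Continuous nsq := by
  unfold nsq; fun_prop

theorem continuousAt_prj {v : Fin 3 → ℂ} (hv : v ≠ 0) : ContinuousAt prj v := by
  rw [continuousAt_pi]
  intro i
  rw [continuousAt_pi]
  intro j
  unfold prj
  apply ContinuousAt.div
  · fun_prop
  · exact (Complex.continuous_ofReal.comp continuous_nsq).continuousAt
  · exact_mod_cast (nsq_pos hv).ne'

theorem prj_smul {c : ℂ} (hc : c ≠ 0) (v : Fin 3 → ℂ) : prj (c • v) = prj v := by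
  funext i j
  have h1 : nsq (c • v) = ‖c‖ ^ 2 * nsq v := by
    unfold nsq
    rw [Finset.mul_sum]
    refine Finset.sum_congr rfl fun l _ => ?_
    rw [Pi.smul_apply, smul_eq_mul, norm_mul, mul_pow]
  have h2 : ((‖c‖ ^ 2 : ℝ) : ℂ) = c * conj c := by
    rw [Complex.mul_conj, Complex.normSq_eq_norm_sq]
  have h3 : c * conj c ≠ 0 := mul_ne_zero hc ((map_ne_zero _).2 hc)
  simp only [prj, Pi.smul_apply, smul_eq_mul, map_mul, h1]
  rw [Complex.ofReal_mul, h2]
  rw [show c * v i * (conj c * conj (v j)) = (c * conj c) * (v i * conj (v j)) by ring]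
  exact mul_div_mul_left _ _ h3

theorem pt_smul {c : ℂ} (hc : c ≠ 0) (v : Fin 3 → ℂ) (hv : v ≠ 0) :
    pt (c • v) (smul_ne_zero hc hv) = pt v hv := Subtype.ext (prj_smul hc v)

theorem pt_congr {v w : Fin 3 → ℂ} (hv : v ≠ 0) (h : v = w) : pt v hv = pt w (h ▸ hv) := by
  subst h; rfl

/-! ### topology -/

/-- the map from the unit sphere -/
def sph : Metric.sphere (0 : EuclideanSpace ℂ (Fin 3)) 1 → P2 := fun x =>
  pt (fun i => x.1 i) (by
    intro h
    have h1 := x.2
    have : x.1 = 0 := by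
      ext i
      exact congrFun h i
    rw [this] at h1
    simp at h1)

theorem continuous_sph : Continuous sph := by
  refine Continuous.subtype_mk ?_ _
  rw [continuous_iff_continuousAt]
  intro x
  have hx : (fun i => x.1 i) ≠ 0 := by
    intro h
    have h1 := x.2
    have : x.1 = 0 := by
      ext i
      exact congrFun h i
    rw [this] at h1
    simp at h1
  have h1 : ContinuousAt (fun y : Metric.sphere (0 : EuclideanSpace ℂ (Fin 3)) 1 =>
      (fun i => y.1 i : Fin 3 → ℂ)) x := by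
    refine Continuous.continuousAt ?_
    fun_prop
  exact ContinuousAt.comp (g := prj) (continuousAt_prj hx) h1

theorem surjective_sph : Function.Surjective sph := by
  rintro ⟨A, v, hv, rfl⟩
  have h0 : 0 < nsq v := nsq_pos hv
  have hs : (0:ℝ) < Real.sqrt (nsq v) := Real.sqrt_pos.2 h0
  set c : ℂ := (((Real.sqrt (nsq v))⁻¹ : ℝ) : ℂ) with hc
  have hc0 : c ≠ 0 := by
    rw [hc]; exact_mod_cast (inv_pos.2 hs).ne'
  refine ⟨⟨WithLp.toLp 2 (c • v), ?_⟩, ?_⟩
  · rw [mem_sphere_zero_iff_norm, EuclideanSpace.norm_eq]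
    have : ∑ i, ‖(WithLp.toLp 2 (c • v) : EuclideanSpace ℂ (Fin 3)) i‖ ^ 2 = 1 := by
      have h1 : ∀ i, ‖(WithLp.toLp 2 (c • v) : EuclideanSpace ℂ (Fin 3)) i‖ ^ 2 =
          (nsq v)⁻¹ * ‖v i‖ ^ 2 := by
        intro i
        show ‖(c • v) i‖ ^ 2 = _
        rw [Pi.smul_apply, smul_eq_mul, norm_mul, mul_pow, hc, Complex.norm_real, Real.norm_eq_abs,
          abs_of_pos (inv_pos.2 hs), inv_pow, Real.sq_sqrt h0.le]
      rw [Finset.sum_congr rfl fun i _ => h1 i, ← Finset.mul_sum]
      exact inv_mul_cancel₀ h0.ne'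
    rw [this, Real.sqrt_one]
  · apply Subtype.ext
    exact prj_smul hc0 v

instance : CompactSpace P2 := by
  have : CompactSpace (Metric.sphere (0 : EuclideanSpace ℂ (Fin 3)) 1) :=
    isCompact_iff_compactSpace.1 (isCompact_sphere _ _)
  constructor
  rw [← surjective_sph.range_eq, ← Set.image_univ]
  exact isCompact_univ.image continuous_sph

instance : ConnectedSpace P2 := by
  have hr : 1 < Module.rank ℝ (EuclideanSpace ℂ (Fin 3)) := by
    rw [← Module.finrank_eq_rank]
    have : Module.finrank ℝ (EuclideanSpace ℂ (Fin 3)) = 6 := by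
      rw [← Module.finrank_mul_finrank ℝ ℂ (EuclideanSpace ℂ (Fin 3))]
      simp
    rw [this]
    norm_num
  have h1 : IsConnected (Metric.sphere (0 : EuclideanSpace ℂ (Fin 3)) 1) :=
    isConnected_sphere hr 0 zero_le_one
  have : ConnectedSpace (Metric.sphere (0 : EuclideanSpace ℂ (Fin 3)) 1) :=
    isConnected_iff_connectedSpace.1 h1
  exact surjective_sph.connectedSpace continuous_sph

/-! ### charts -/

/-- the diagonal entries -/
theorem diag_eq {v : Fin 3 → ℂ} (j : Fin 3) : prj v j j = ((‖v j‖ ^ 2 / nsq v : ℝ) : ℂ) := by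
  unfold prj
  rw [Complex.mul_conj, Complex.normSq_eq_norm_sq]
  push_cast
  rfl

theorem diag_ne {v : Fin 3 → ℂ} (hv : v ≠ 0) (j : Fin 3) : prj v j j ≠ 0 ↔ v j ≠ 0 := by
  rw [diag_eq]
  have := nsq_pos hv
  constructor
  · intro h h0
    apply h
    rw [h0]; simp
  · intro h
    have h1 : 0 < ‖v j‖ := norm_pos_iff.2 h
    exact_mod_cast (by positivity : (0:ℝ) < ‖v j‖ ^ 2 / nsq v).ne'

theorem ratio_eq {v : Fin 3 → ℂ} (hv : v ≠ 0) (i j : Fin 3) (h : v j ≠ 0) :
    prj v i j / prj v j j = v i / v j := by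
  unfold prj
  have h1 : (nsq v : ℂ) ≠ 0 := by exact_mod_cast (nsq_pos hv).ne'
  have h2 : conj (v j) ≠ 0 := (map_ne_zero _).2 h
  field_simp

/-- homogeneous coordinates with `j`-th coordinate `1` -/
def ins (j : Fin 3) (z : Fin 2 → ℂ) : Fin 3 → ℂ := j.insertNth (α := fun _ => ℂ) 1 z

@[simp] theorem ins_same (j : Fin 3) (z : Fin 2 → ℂ) : ins j z j = 1 := by
  simp [ins]

@[simp] theorem ins_succAbove (j : Fin 3) (z : Fin 2 → ℂ) (i : Fin 2) :
    ins j z (j.succAbove i) = z i := by
  simp [ins]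

theorem ins_ne (j : Fin 3) (z : Fin 2 → ℂ) : ins j z ≠ 0 := by
  intro h
  have := congrFun h j
  simp at this

theorem contDiff_ins {𝕜 : Type} [NontriviallyNormedField 𝕜] [NormedAlgebra 𝕜 ℂ] {n : WithTop ℕ∞}
    (j : Fin 3) : ContDiff 𝕜 n (ins j) := by
  rw [contDiff_pi]
  intro i
  rcases Fin.eq_self_or_eq_succAbove j i with rfl | ⟨k, rfl⟩
  · simp only [ins_same]; exact contDiff_const
  · simp only [ins_succAbove]; exact contDiff_apply 𝕜 ℂ k

theorem continuous_ins (j : Fin 3) : Continuous (ins j) :=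
  (contDiff_ins (𝕜 := ℂ) (n := 0) j).continuous

theorem ins_ratio {v : Fin 3 → ℂ} {j : Fin 3} (h : v j ≠ 0) :
    ins j (fun i => v (j.succAbove i) / v j) = (v j)⁻¹ • v := by
  funext i
  rcases Fin.eq_self_or_eq_succAbove j i with rfl | ⟨k, rfl⟩
  · simp [h]
  · simp only [ins_succAbove, Pi.smul_apply, smul_eq_mul]
    rw [div_eq_mul_inv, mul_comm]

/-- the chart `[v] ↦ (v i / v j)_{i ≠ j}` -/
def chart (j : Fin 3) : OpenPartialHomeomorph P2 (Fin 2 → ℂ) where
  toFun A := fun i => A.1 (j.succAbove i) j / A.1 j j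
  invFun z := pt (ins j z) (ins_ne j z)
  source := {A | A.1 j j ≠ 0}
  target := univ
  map_source' _ _ := mem_univ _
  map_target' z _ := by
    show prj _ j j ≠ 0
    rw [diag_ne (ins_ne j z)]
    simp
  left_inv' := by
    rintro ⟨A, v, hv, rfl⟩ hA
    have hj : v j ≠ 0 := (diag_ne hv j).1 hA
    apply Subtype.ext
    show prj (ins j fun i => prj v (j.succAbove i) j / prj v j j) = prj v
    have : (fun i => prj v (j.succAbove i) j / prj v j j) = fun i => v (j.succAbove i) / v j := by
      funext i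
      exact ratio_eq hv _ _ hj
    rw [this, ins_ratio hj, prj_smul (inv_ne_zero hj)]
  right_inv' := by
    intro z _
    funext i
    show prj (ins j z) (j.succAbove i) j / prj (ins j z) j j = z i
    rw [ratio_eq (ins_ne j z) _ _ (by simp)]
    simp
  open_source := by
    have hc : Continuous fun A : P2 => A.1 j j :=
      (continuous_apply j).comp ((continuous_apply j).comp continuous_subtype_val)
    exact isOpen_ne_fun hc continuous_const
  open_target := isOpen_univ
  continuousOn_toFun := by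
    rw [continuousOn_pi]
    intro i
    apply ContinuousOn.div
    · exact ((continuous_apply j).comp ((continuous_apply (j.succAbove i)).comp
        continuous_subtype_val)).continuousOn
    · exact ((continuous_apply j).comp ((continuous_apply j).comp
        continuous_subtype_val)).continuousOn
    · intro A hA; exact hA
  continuousOn_invFun := by
    refine Continuous.continuousOn ?_
    refine Continuous.subtype_mk ?_ _
    rw [continuous_iff_continuousAt]
    intro z
    exact ContinuousAt.comp (g := prj) (continuousAt_prj (ins_ne j z))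
      (continuous_ins j).continuousAt

theorem exists_diag (A : P2) : ∃ j, A.1 j j ≠ 0 := by
  obtain ⟨A, v, hv, rfl⟩ := A
  obtain ⟨i, hi⟩ := Function.ne_iff.1 hv
  exact ⟨i, (diag_ne hv i).2 hi⟩

instance : ChartedSpace (Fin 2 → ℂ) P2 where
  atlas := range chart
  chartAt A := chart (exists_diag A).choose
  mem_chart_source A := (exists_diag A).choose_spec
  chart_mem_atlas A := mem_range_self _

theorem trans_apply (j k : Fin 3) {z : Fin 2 → ℂ} (hz : ins j z k ≠ 0) :
    chart k ((chart j).symm z) = fun i => ins j z (k.succAbove i) / ins j z k := by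
  funext i
  show prj (ins j z) (k.succAbove i) k / prj (ins j z) k k = _
  exact ratio_eq (ins_ne j z) _ _ hz

theorem mem_trans (j k : Fin 3) (z : Fin 2 → ℂ) :
    (chart j).symm z ∈ (chart k).source ↔ ins j z k ≠ 0 := by
  show prj (ins j z) k k ≠ 0 ↔ _
  exact diag_ne (ins_ne j z) k

theorem contDiffOn_trans {𝕜 : Type} [NontriviallyNormedField 𝕜] [NormedAlgebra 𝕜 ℂ]
    {n : WithTop ℕ∞} (j k : Fin 3) :
    ContDiffOn 𝕜 n (fun z => chart k ((chart j).symm z)) {z | ins j z k ≠ 0} := by
  have h1 : ContDiffOn 𝕜 n (fun z => fun i : Fin 2 => ins j z (k.succAbove i) / ins j z k)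
      {z | ins j z k ≠ 0} := by
    rw [contDiffOn_pi]
    intro i
    have e : (fun z => ins j z (k.succAbove i) / ins j z k) =
        fun z => ins j z (k.succAbove i) * (ins j z k)⁻¹ := by
      funext z; rw [div_eq_mul_inv]
    rw [e]
    apply ContDiffOn.mul
    · exact ((contDiff_apply 𝕜 ℂ _).comp (contDiff_ins j)).contDiffOn
    · apply ContDiffOn.inv
      · exact ((contDiff_apply 𝕜 ℂ _).comp (contDiff_ins j)).contDiffOn
      · intro z hz; exact hz
  exact h1.congr fun z hz => trans_apply j k hz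

instance : IsManifold 𝓘(ℂ, Fin 2 → ℂ) ω P2 := by
  apply isManifold_of_contDiffOn
  rintro _ _ ⟨j, rfl⟩ ⟨k, rfl⟩
  refine (contDiffOn_trans (𝕜 := ℂ) (n := ω) j k).mono ?_
  rintro z ⟨hz, -⟩
  simp only [mem_preimage, mfld_simps] at hz
  exact (mem_trans j k z).1 hz.2

instance instReal : IsManifold 𝓘(ℝ, Fin 2 → ℂ) ∞ P2 := by
  apply isManifold_of_contDiffOn
  rintro _ _ ⟨j, rfl⟩ ⟨k, rfl⟩
  refine (contDiffOn_trans (𝕜 := ℝ) (n := ∞) j k).mono ?_
  rintro z ⟨hz, -⟩
  simp only [mem_preimage, mfld_simps] at hz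
  exact (mem_trans j k z).1 hz.2

end

end Pool.Agent.K4H53
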