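import Pool.Agent.K4H72.Til.Spec

open Set

namespace Pool.Agent.K4H72.Til

theorem simDir {ι : Type*} [Fintype ι] (θ : ι → ℝ) (δ : ℝ) (hδ : 0 < δ) :
    ∃ M : ℕ, 0 < M ∧ ∃ n : ι → ℤ, ∀ i, |(M : ℝ) * θ i - n i| ≤ δ := by
  have hc : IsCompact (Set.Icc (0 : ι → ℝ) 1) := isCompact_Icc
  let a : ℕ → ι → ℝ := fun m i => Int.fract ((m : ℝ) * θ i)
  have ha : ∀ m, a m ∈ Set.Icc (0 : ι → ℝ) 1 :=
    fun m => ⟨fun i => Int.fract_nonneg _, fun i => (Int.fract_lt_one _).le⟩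
  obtain ⟨x, _, φ, hφ, hlim⟩ := hc.tendsto_subseq ha
  have hcau := hlim.cauchySeq
  rw [Metric.cauchySeq_iff'] at hcau
  obtain ⟨N, hN⟩ := hcau δ hδ
  have h1 := hN (N + 1) (by omega)
  have hlt : φ N < φ (N + 1) := hφ (by omega)
  refine ⟨φ (N + 1) - φ N, by omega, fun i => ⌊(φ (N + 1) : ℝ) * θ i⌋ - ⌊(φ N : ℝ) * θ i⌋, fun i => ?_⟩
  have h2 := (dist_pi_lt_iff hδ).1 h1 i
  rw [Real.dist_eq] at h2
  simp only [Function.comp, a, Int.fract] at h2
  push_cast [Nat.cast_sub hlt.le]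
  refine le_trans (le_of_eq ?_) h2.le
  congr 1; ring

theorem approx (F : Set ℂ) (hF : F.Finite) (η : ℝ) (hη : 0 < η) :
    ∃ M : ℕ, 0 < M ∧ ∃ φ : AddSubgroup.closure F →+ ℤ × ℤ,
      ∀ f (hf : f ∈ F), ‖(M : ℂ) * f - E (φ ⟨f, AddSubgroup.subset_closure hf⟩)‖ ≤ η := by
  classical
  have hfg : AddGroup.FG (AddSubgroup.closure F) := by
    rw [AddGroup.fg_iff_addSubgroup_fg]
    exact ⟨hF.toFinset, by simp⟩
  have : Module.Finite ℤ (AddSubgroup.closure F) := Module.Finite.iff_addGroup_fg.2 hfg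
  have : Module.Free ℤ (AddSubgroup.closure F) := inferInstance
  let b := Module.Free.chooseBasis ℤ (AddSubgroup.closure F)
  let x : ℂ → ℝ := fun z => z.re - z.im / Real.sqrt 3
  let y : ℂ → ℝ := fun z => 2 * z.im / Real.sqrt 3
  have hxy : ∀ z : ℂ, z = (x z : ℂ) + (y z : ℂ) * ζ := by
    intro z
    have h3 : Real.sqrt 3 ≠ 0 := by positivity
    apply Complex.ext
    · simp [x, y, ζ]
      field_simp
      ring
    · simp [x, y, ζ]
      field_simp
  have hζ : ‖ζ‖ ≤ 1 := by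
    have : ‖ζ‖ ^ 2 = 1 := by
      rw [Complex.sq_norm, Complex.normSq_apply]
      simp only [ζ]
      have h3 : Real.sqrt 3 * Real.sqrt 3 = 3 := Real.mul_self_sqrt (by norm_num)
      nlinarith
    nlinarith [norm_nonneg ζ]
  obtain ⟨C, hC, hCf⟩ : ∃ C : ℝ, 0 ≤ C ∧ ∀ f (hf : f ∈ F),
      ∑ i, |((b.repr ⟨f, AddSubgroup.subset_closure hf⟩ i : ℤ) : ℝ)| ≤ C := by
    have : Finite F := hF
    obtain ⟨C, hC⟩ := (Set.finite_range (fun f : F =>
      ∑ i, |((b.repr ⟨f.1, AddSubgroup.subset_closure f.2⟩ i : ℤ) : ℝ)|)).bddAbove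
    exact ⟨max C 0, le_max_right _ _, fun f hf => (hC ⟨⟨f, hf⟩, rfl⟩).trans (le_max_left _ _)⟩
  obtain ⟨M, hM, n, hn⟩ := simDir (ι := Module.Free.ChooseBasisIndex ℤ (AddSubgroup.closure F) × Bool)
    (fun p => if p.2 then y (b p.1 : ℂ) else x (b p.1 : ℂ)) (η / (2 * (C + 1))) (by positivity)
  let φ : AddSubgroup.closure F →+ ℤ × ℤ :=
    (b.constr ℤ (fun i => (n (i, false), n (i, true)))).toAddMonoidHom
  have hφ : ∀ i, φ (b i) = (n (i, false), n (i, true)) := fun i => by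
    change (b.constr ℤ (fun i => (n (i, false), n (i, true)))) (b i) = _
    rw [Module.Basis.constr_basis]
  refine ⟨M, hM, φ, fun f hf => ?_⟩
  -- the additive map
  let Eh : ℤ × ℤ →+ ℂ :=
    { toFun := E
      map_zero' := by simp [E]
      map_add' := fun v w => by simp only [E, Prod.fst_add, Prod.snd_add]; push_cast; ring }
  let ψ : AddSubgroup.closure F →+ ℂ :=
    (AddMonoidHom.mulLeft (M : ℂ)).comp (AddSubgroup.closure F).subtype - Eh.comp φ
  have hψ : ∀ g : AddSubgroup.closure F, ψ g = (M : ℂ) * (g : ℂ) - E (φ g) := fun g => rfl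
  have hb : ∀ i, ‖ψ (b i)‖ ≤ η / (C + 1) := by
    intro i
    have h1 := hn (i, false)
    have h2 := hn (i, true)
    simp only [Bool.false_eq_true, if_false, if_true] at h1 h2
    have h3 : ψ (b i) = (((M : ℝ) * x (b i : ℂ) - n (i, false) : ℝ) : ℂ) +
        (((M : ℝ) * y (b i : ℂ) - n (i, true) : ℝ) : ℂ) * ζ := by
      rw [hψ, hφ]
      conv_lhs => rw [hxy (b i : ℂ)]
      simp only [E]
      push_cast
      ring
    rw [h3]
    refine (norm_add_le _ _).trans ?_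
    rw [norm_mul, Complex.norm_real, Complex.norm_real, Real.norm_eq_abs, Real.norm_eq_abs]
    have h4 : |(M : ℝ) * y (b i : ℂ) - n (i, true)| * ‖ζ‖ ≤ η / (2 * (C + 1)) * 1 :=
      mul_le_mul h2 hζ (norm_nonneg _) (by positivity)
    have h5 : η / (2 * (C + 1)) + η / (2 * (C + 1)) * 1 = η / (C + 1) := by
      field_simp; ring
    linarith
  set g : AddSubgroup.closure F := ⟨f, AddSubgroup.subset_closure hf⟩ with hg
  have h1 : ψ g = ∑ i, (b.repr g i) • ψ (b i) := by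
    conv_lhs => rw [← b.sum_repr g]
    rw [map_sum]
    refine Finset.sum_congr rfl fun i _ => ?_
    rw [map_zsmul]
  have h2 : ‖ψ g‖ ≤ η := by
    rw [h1]
    refine (norm_sum_le _ _).trans ?_
    have h3 : ∀ i ∈ Finset.univ, ‖(b.repr g i) • ψ (b i)‖ ≤ |((b.repr g i : ℤ) : ℝ)| * (η / (C + 1)) := by
      intro i _
      rw [zsmul_eq_mul, norm_mul]
      refine mul_le_mul (le_of_eq ?_) (hb i) (norm_nonneg _) (abs_nonneg _)
      rw [Complex.norm_intCast]
    refine (Finset.sum_le_sum h3).trans ?_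
    rw [← Finset.sum_mul]
    have h4 : ∑ i, |((b.repr g i : ℤ) : ℝ)| ≤ C := hCf f hf
    calc (∑ i, |((b.repr g i : ℤ) : ℝ)|) * (η / (C + 1)) ≤ C * (η / (C + 1)) :=
          mul_le_mul_of_nonneg_right h4 (by positivity)
      _ ≤ (C + 1) * (η / (C + 1)) := mul_le_mul_of_nonneg_right (by linarith) (by positivity)
      _ = η := by field_simp
  rw [hψ] at h2
  exact h2

end Pool.Agent.K4H72.Til
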