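import Pool.Agent.K4H72.Til.Spec

open Set

namespace Pool.Agent.K4H72.Til

theorem nE53 (v : ℤ × ℤ) : ‖E v‖ ^ 2 = (v.1 : ℝ) ^ 2 + v.1 * v.2 + (v.2 : ℝ) ^ 2 := by
  rw [Complex.sq_norm, Complex.normSq_apply]
  simp only [E, ζ, Complex.add_re, Complex.add_im, Complex.mul_re, Complex.mul_im, Complex.intCast_re,
    Complex.intCast_im]
  have h3 : Real.sqrt 3 * Real.sqrt 3 = 3 := Real.mul_self_sqrt (by norm_num)
  ring_nf
  rw [Real.sq_sqrt (by norm_num)]
  ring

theorem oneE53 (v : ℤ × ℤ) (hv : v ≠ 0) : 1 ≤ ‖E v‖ ^ 2 := by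
  rw [nE53]
  have h : 1 ≤ v.1 ^ 2 + v.1 * v.2 + v.2 ^ 2 := by
    by_contra hlt
    have h4 : 4 * (v.1 ^ 2 + v.1 * v.2 + v.2 ^ 2) = (2 * v.1 + v.2) ^ 2 + 3 * v.2 ^ 2 := by ring
    have h2 : v.2 ^ 2 = 0 := by nlinarith [sq_nonneg (2 * v.1 + v.2), sq_nonneg v.2]
    have h2' : v.2 = 0 := by simpa using h2
    have h1 : v.1 ^ 2 = 0 := by rw [h2'] at hlt; nlinarith [sq_nonneg v.1]
    have h1' : v.1 = 0 := by simpa using h1
    exact hv (Prod.ext h1' h2')
  exact_mod_cast h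

theorem sixE53 (e : ℤ × ℤ) (he : e ∈ six) : ‖E e‖ = 1 := by
  have h : ‖E e‖ ^ 2 = 1 := by
    rw [nE53]
    simp only [six, Finset.mem_insert, Finset.mem_singleton] at he
    rcases he with rfl | rfl | rfl | rfl | rfl | rfl <;> norm_num
  nlinarith [norm_nonneg (E e)]

theorem subE53 (v w : ℤ × ℤ) : E (v - w) = E v - E w := by
  simp only [E, Prod.fst_sub, Prod.snd_sub]
  push_cast
  ring

theorem par53 (u ε : ℂ) : ‖u - ((1 / 2 : ℝ) : ℂ) * ε‖ ^ 2 = (‖u‖ ^ 2 + ‖u - ε‖ ^ 2) / 2 - ‖ε‖ ^ 2 / 4 := by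
  simp only [Complex.sq_norm, Complex.normSq_apply, Complex.sub_re, Complex.sub_im, Complex.mul_re,
    Complex.mul_im, Complex.ofReal_re, Complex.ofReal_im]
  ring

theorem edge (h : ℝ) (g : ℤ × ℤ → ℂ) (hg : Def1 h g) (v e : ℤ × ℤ) (he : e ∈ six) :
    ShareEdge (cell g v) (cell g (v + e)) := by
  obtain ⟨hh, hd⟩ := hg
  have hEe := sixE53 e he
  have hab : ‖g (v + e) - g v - (h : ℂ) * E e‖ ≤ 1 / 20 * h := by
    have := hd (v + e) v
    rwa [add_sub_cancel_left, hEe, mul_one] at this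
  have hhE : ‖(h : ℂ) * E e‖ = h := by
    rw [norm_mul, hEe, mul_one, Complex.norm_real, Real.norm_eq_abs, abs_of_pos hh]
  have hup : ‖g (v + e) - g v‖ ≤ 21 / 20 * h := by
    have h1 := norm_add_le (g (v + e) - g v - (h : ℂ) * E e) ((h : ℂ) * E e)
    rw [sub_add_cancel, hhE] at h1
    linarith
  have hlo : 19 / 20 * h ≤ ‖g (v + e) - g v‖ := by
    have h1 := norm_sub_le (g (v + e) - g v) (g (v + e) - g v - (h : ℂ) * E e)
    rw [sub_sub_cancel, hhE] at h1
    linarith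
  have hne : g (v + e) - g v ≠ 0 := by
    intro h0
    rw [h0, norm_zero] at hlo
    linarith
  -- the points of the edge
  have key : ∀ t : ℝ, |t| ≤ 1 / 10 →
      (g v + (((1 / 2 : ℝ) : ℂ) + (t : ℂ) * Complex.I) * (g (v + e) - g v)) ∈ cell g v ∩ cell g (v + e) := by
    intro t ht
    set p := g v + (((1 / 2 : ℝ) : ℂ) + (t : ℂ) * Complex.I) * (g (v + e) - g v) with hp
    have ht2 : t ^ 2 ≤ 1 / 100 := by
      rw [← sq_abs]
      nlinarith [abs_nonneg t]
    have hpa : p - g v = (((1 / 2 : ℝ) : ℂ) + (t : ℂ) * Complex.I) * (g (v + e) - g v) := by rw [hp]; ring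
    have hpb : p - g (v + e) = (((-1 / 2 : ℝ) : ℂ) + (t : ℂ) * Complex.I) * (g (v + e) - g v) := by
      rw [hp]; push_cast; ring
    have hna : ‖((1 / 2 : ℝ) : ℂ) + (t : ℂ) * Complex.I‖ ^ 2 = 1 / 4 + t ^ 2 := by
      rw [Complex.sq_norm, Complex.normSq_add_mul_I]; ring
    have hnb : ‖((-1 / 2 : ℝ) : ℂ) + (t : ℂ) * Complex.I‖ ^ 2 = 1 / 4 + t ^ 2 := by
      rw [Complex.sq_norm, Complex.normSq_add_mul_I]; ring
    have heq : ‖p - g v‖ = ‖p - g (v + e)‖ := by
      have : ‖p - g v‖ ^ 2 = ‖p - g (v + e)‖ ^ 2 := by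
        rw [hpa, hpb, norm_mul, norm_mul, mul_pow, mul_pow, hna, hnb]
      exact (sq_eq_sq₀ (norm_nonneg _) (norm_nonneg _)).1 this
    have hle : ‖p - g v‖ ≤ 11 / 20 * h := by
      have h1 : ‖p - g v‖ ^ 2 ≤ (11 / 20 * h) ^ 2 := by
        rw [hpa, norm_mul, mul_pow, hna]
        have h2 : ‖g (v + e) - g v‖ ^ 2 ≤ (21 / 20 * h) ^ 2 := by
          apply pow_le_pow_left₀ (norm_nonneg _) hup
        have h3 : (1 / 4 + t ^ 2) * ‖g (v + e) - g v‖ ^ 2 ≤ (26 / 100) * (21 / 20 * h) ^ 2 := by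
          apply mul_le_mul (by linarith) h2 (sq_nonneg _) (by norm_num)
        nlinarith [sq_nonneg h]
      exact le_of_sq_le_sq h1 (by positivity)
    have hall : ∀ w, ‖p - g v‖ ≤ ‖p - g w‖ := by
      intro w
      by_cases hw1 : w = v
      · rw [hw1]
      by_cases hw2 : w = v + e
      · rw [hw2, heq]
      have hu1 : 1 ≤ ‖E (w - v)‖ ^ 2 := oneE53 _ (sub_ne_zero.2 hw1)
      have hu2 : 1 ≤ ‖E (w - v) - E e‖ ^ 2 := by
        rw [← subE53]
        apply oneE53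
        intro h0
        apply hw2
        rw [sub_sub, sub_eq_zero] at h0
        exact h0
      set u := E (w - v) with hu
      set s := ‖u - ((1 / 2 : ℝ) : ℂ) * E e‖ with hs
      have hs2 : 3 / 4 ≤ s ^ 2 := by
        rw [hs, par53, hEe]
        linarith
      have hs0 : 0 ≤ s := norm_nonneg _
      have hs1 : 86 / 100 ≤ s := by nlinarith
      have hun : ‖u‖ ≤ s + 1 / 2 := by
        have h1 := norm_add_le (u - ((1 / 2 : ℝ) : ℂ) * E e) (((1 / 2 : ℝ) : ℂ) * E e)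
        rw [sub_add_cancel, norm_mul, hEe, Complex.norm_real, Real.norm_eq_abs] at h1
        rw [abs_of_pos (by norm_num : (0 : ℝ) < 1 / 2)] at h1
        linarith
      have hδ := hd w v
      have hdec : (h : ℂ) * (u - ((1 / 2 : ℝ) : ℂ) * E e) = -(p - g w) - (g w - g v - (h : ℂ) * E (w - v)) +
          (((1 / 2 : ℝ) : ℂ) * (g (v + e) - g v - (h : ℂ) * E e) + ((t : ℂ) * Complex.I) * (g (v + e) - g v)) := by
        rw [hp, hu]
        push_cast
        ring
      have hn : h * s ≤ ‖p - g w‖ + 1 / 20 * h * ‖u‖ + (1 / 2 * (1 / 20 * h) + 1 / 10 * (21 / 20 * h)) := by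
        have h1 : ‖(h : ℂ) * (u - ((1 / 2 : ℝ) : ℂ) * E e)‖ = h * s := by
          rw [norm_mul, Complex.norm_real, Real.norm_eq_abs, abs_of_pos hh]
        rw [← h1, hdec]
        refine (norm_add_le _ _).trans (add_le_add ((norm_sub_le _ _).trans (add_le_add (le_of_eq (norm_neg _)) hδ))
          ((norm_add_le _ _).trans (add_le_add ?_ ?_)))
        · rw [norm_mul, Complex.norm_real, Real.norm_eq_abs, abs_of_pos (by norm_num : (0 : ℝ) < 1 / 2)]
          exact mul_le_mul_of_nonneg_left hab (by norm_num)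
        · rw [norm_mul, norm_mul, Complex.norm_real, Real.norm_eq_abs, Complex.norm_I, mul_one]
          exact mul_le_mul ht hup (norm_nonneg _) (by norm_num)
      have h5 : 1 / 20 * h * ‖u‖ ≤ 1 / 20 * h * (s + 1 / 2) := mul_le_mul_of_nonneg_left hun (by positivity)
      have h6 : h * (86 / 100) ≤ h * s := mul_le_mul_of_nonneg_left hs1 hh.le
      nlinarith
    exact ⟨hall, fun w => heq ▸ hall w⟩
  have hA : ∀ z ∈ cell g v ∩ cell g (v + e), ‖z - g v‖ = ‖z - g (v + e)‖ :=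
    fun z hz => le_antisymm (hz.1 _) (hz.2 _)
  have lin : ∀ z : ℂ, ‖z - g (v + e)‖ ^ 2 - ‖z - g v‖ ^ 2 =
      ‖g (v + e)‖ ^ 2 - ‖g v‖ ^ 2 - 2 * (innerSL ℝ (g (v + e) - g v) z) := by
    intro z
    rw [innerSL_apply_apply, Complex.inner]
    simp only [Complex.sq_norm, Complex.normSq_apply, Complex.sub_re, Complex.sub_im, Complex.mul_re,
      Complex.conj_re, Complex.conj_im, map_sub]
    ring
  have half : ∀ z ∈ cell g v, 2 * (innerSL ℝ (g (v + e) - g v) z) ≤ ‖g (v + e)‖ ^ 2 - ‖g v‖ ^ 2 := by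
    intro z hz
    have h1 := lin z
    have h2 : ‖z - g v‖ ^ 2 ≤ ‖z - g (v + e)‖ ^ 2 := pow_le_pow_left₀ (norm_nonneg _) (hz _) 2
    linarith
  have half' : ∀ z ∈ cell g (v + e), ‖g (v + e)‖ ^ 2 - ‖g v‖ ^ 2 ≤ 2 * (innerSL ℝ (g (v + e) - g v) z) := by
    intro z hz
    have h1 := lin z
    have h2 : ‖z - g (v + e)‖ ^ 2 ≤ ‖z - g v‖ ^ 2 := pow_le_pow_left₀ (norm_nonneg _) (hz _) 2
    linarith
  have eqn : ∀ z, 2 * (innerSL ℝ (g (v + e) - g v) z) = ‖g (v + e)‖ ^ 2 - ‖g v‖ ^ 2 →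
      ‖z - g v‖ = ‖z - g (v + e)‖ := by
    intro z hz
    have h1 := lin z
    have h2 : ‖z - g v‖ ^ 2 = ‖z - g (v + e)‖ ^ 2 := by linarith
    exact (sq_eq_sq₀ (norm_nonneg _) (norm_nonneg _)).1 h2
  have hm0 := key 0 (by norm_num)
  refine ⟨cell g v ∩ cell g (v + e), fun _ => ⟨innerSL ℝ (g (v + e) - g v), ?_⟩,
    fun _ => ⟨-innerSL ℝ (g (v + e) - g v), ?_⟩, ?_, ?_, ?_⟩
  · ext z
    constructor
    · intro hz
      refine ⟨hz.1, fun y hy => ?_⟩
      have h1 := half y hy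
      have h2 := half' z hz.2
      linarith
    · rintro ⟨hz, hmax⟩
      refine ⟨hz, ?_⟩
      have h1 := half z hz
      have h2 := hmax _ hm0.1
      have h3 := half' _ hm0.2
      have h4 := eqn z (by linarith)
      intro w
      rw [← h4]
      exact hz w
  · ext z
    constructor
    · intro hz
      refine ⟨hz.2, fun y hy => ?_⟩
      have h1 := half' y hy
      have h2 := half z hz.1
      simp only [ContinuousLinearMap.neg_apply]
      linarith
    · rintro ⟨hz, hmax⟩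
      refine ⟨?_, hz⟩
      have h1 := half' z hz
      have h2 := hmax _ hm0.2
      simp only [ContinuousLinearMap.neg_apply] at h2
      have h3 := half _ hm0.1
      have h4 := eqn z (by linarith)
      intro w
      rw [h4]
      exact hz w
  · refine ⟨_, hm0, _, key (1 / 10) (by rw [abs_of_pos] <;> norm_num), ?_⟩
    intro h0
    have h1 := add_left_cancel h0
    have h2 := mul_right_cancel₀ hne h1
    have h3 := congrArg Complex.im h2
    norm_num [Complex.add_im, Complex.mul_im] at h3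
  · intro h0
    have h1 : g v ∈ cell g v := fun w => by rw [sub_self, norm_zero]; exact norm_nonneg _
    rw [← h0] at h1
    have h2 := h1.2 v
    rw [sub_self, norm_zero] at h2
    rw [norm_sub_rev] at hlo
    linarith
  · intro h0
    have h1 : g (v + e) ∈ cell g (v + e) := fun w => by rw [sub_self, norm_zero]; exact norm_nonneg _
    rw [← h0] at h1
    have h2 := h1.1 (v + e)
    rw [sub_self, norm_zero] at h2
    linarith

end Pool.Agent.K4H72.Til
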