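import Pool.Agent.K4H58.XK.Spec

open Finset

namespace Pool.Agent.K4H58.XK

namespace G1aux

theorem base (k s : ℕ) : ((k.choose s : ℕ) : ℝ) ≤ (1 / 2) ^ s * ((2 * k).choose s : ℝ) := by
  induction s with
  | zero => simp
  | succ s ih =>
    rcases le_or_gt k s with h | h
    · rw [Nat.choose_eq_zero_of_lt (by omega)]
      simp only [Nat.cast_zero]
      positivity
    · have h1 := Nat.choose_succ_right_eq k s
      have h2 := Nat.choose_succ_right_eq (2 * k) s
      have h1' : ((k.choose (s + 1) : ℕ) : ℝ) * (s + 1) = (k.choose s : ℝ) * ((k : ℝ) - s) := by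
        have := congrArg (fun x : ℕ => (x : ℝ)) h1
        push_cast [Nat.cast_sub h.le] at this
        exact this
      have h2' : (((2 * k).choose (s + 1) : ℕ) : ℝ) * (s + 1) =
          ((2 * k).choose s : ℝ) * (2 * (k : ℝ) - s) := by
        have := congrArg (fun x : ℕ => (x : ℝ)) h2
        push_cast [Nat.cast_sub (show s ≤ 2 * k by omega)] at this
        exact this
      have hs : (0 : ℝ) < (s : ℝ) + 1 := by positivity
      have hk : (0 : ℝ) ≤ (k : ℝ) - s := by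
        have : (s : ℝ) ≤ k := by exact_mod_cast h.le
        linarith
      have hd : (0 : ℝ) ≤ ((2 * k).choose s : ℝ) := Nat.cast_nonneg _
      have h3 : ((k.choose (s + 1) : ℕ) : ℝ) * (s + 1) ≤
          (1 / 2) ^ (s + 1) * (((2 * k).choose (s + 1) : ℕ) : ℝ) * (s + 1) := by
        rw [mul_assoc, h2', h1']
        have h4 : (k.choose s : ℝ) * ((k : ℝ) - s) ≤
            (1 / 2) ^ s * ((2 * k).choose s : ℝ) * ((k : ℝ) - s) :=
          mul_le_mul_of_nonneg_right ih hk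
        refine h4.trans ?_
        rw [pow_succ]
        have h5 : (0 : ℝ) ≤ (1 / 2 : ℝ) ^ s * ((2 * k).choose s : ℝ) := by positivity
        nlinarith [Nat.cast_nonneg (α := ℝ) s]
      exact le_of_mul_le_mul_right h3 hs

theorem step (k t s : ℕ) (q : ℝ) (hq : (k : ℝ) + t + 1 ≤ q * (2 * k + t + 1)) {x : ℝ} (hx : 0 ≤ x)
    (h : (((k + t).choose (t + s) : ℕ) : ℝ) ≤ x * ((2 * k + t).choose (t + s) : ℝ)) :
    (((k + (t + 1)).choose (t + 1 + s) : ℕ) : ℝ) ≤
      q * x * ((2 * k + (t + 1)).choose (t + 1 + s) : ℝ) := by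
  have e1 := Nat.add_one_mul_choose_eq (k + t) (t + s)
  have e2 := Nat.add_one_mul_choose_eq (2 * k + t) (t + s)
  have a1 : k + t + 1 = k + (t + 1) := by ring
  have a2 : t + s + 1 = t + 1 + s := by ring
  have a3 : 2 * k + t + 1 = 2 * k + (t + 1) := by ring
  have e1' : ((k : ℝ) + t + 1) * ((k + t).choose (t + s) : ℝ) =
      (((k + (t + 1)).choose (t + 1 + s) : ℕ) : ℝ) * ((t : ℝ) + 1 + s) := by
    have := congrArg (fun x : ℕ => (x : ℝ)) e1
    rw [a1, a2] at this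
    push_cast at this
    linarith
  have e2' : (2 * (k : ℝ) + t + 1) * ((2 * k + t).choose (t + s) : ℝ) =
      (((2 * k + (t + 1)).choose (t + 1 + s) : ℕ) : ℝ) * ((t : ℝ) + 1 + s) := by
    have := congrArg (fun x : ℕ => (x : ℝ)) e2
    rw [a3, a2] at this
    push_cast at this
    linarith
  have hs : (0 : ℝ) < (t : ℝ) + 1 + s := by positivity
  have h3 : (((k + (t + 1)).choose (t + 1 + s) : ℕ) : ℝ) * ((t : ℝ) + 1 + s) ≤
      q * x * ((2 * k + (t + 1)).choose (t + 1 + s) : ℝ) * ((t : ℝ) + 1 + s) := by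
    rw [← e1', mul_assoc (q * x), ← e2']
    have h4 : ((k : ℝ) + t + 1) * ((k + t).choose (t + s) : ℝ) ≤
        ((k : ℝ) + t + 1) * (x * ((2 * k + t).choose (t + s) : ℝ)) :=
      mul_le_mul_of_nonneg_left h (by positivity)
    refine h4.trans ?_
    have h5 : (0 : ℝ) ≤ x * ((2 * k + t).choose (t + s) : ℝ) :=
      mul_nonneg hx (Nat.cast_nonneg _)
    have h6 := mul_le_mul_of_nonneg_right hq h5
    linarith
  exact le_of_mul_le_mul_right h3 hs

theorem low (k s t : ℕ) (ht : 2 * t ≤ k) : (((k + t).choose (t + s) : ℕ) : ℝ) ≤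
    (3 / 5) ^ t * (1 / 2) ^ s * ((2 * k + t).choose (t + s) : ℝ) := by
  induction t with
  | zero => simpa using base k s
  | succ t ih =>
    have h := step k t s (3 / 5) (by
      have : 2 * ((t : ℝ) + 1) ≤ k := by exact_mod_cast ht
      linarith) (x := (3 / 5) ^ t * (1 / 2) ^ s) (by positivity) (ih (by omega))
    refine h.trans (le_of_eq ?_)
    ring

theorem high (k s h u : ℕ) (hh : 2 * h ≤ k) (hu : h + u ≤ k) :
    (((k + (h + u)).choose (h + u + s) : ℕ) : ℝ) ≤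
    (2 / 3) ^ u * ((3 / 5) ^ h * (1 / 2) ^ s) * ((2 * k + (h + u)).choose (h + u + s) : ℝ) := by
  induction u with
  | zero => simpa using low k s h hh
  | succ u ih =>
    have h1 := step k (h + u) s (2 / 3) (by
      have : ((h : ℝ) + u) + 1 ≤ k := by exact_mod_cast (by omega : h + u + 1 ≤ k)
      push_cast
      linarith) (x := (2 / 3) ^ u * ((3 / 5) ^ h * (1 / 2) ^ s)) (by positivity) (ih (by omega))
    refine h1.trans (le_of_eq ?_)
    ring_nf

theorem n1 (t : ℕ) : ((t : ℝ) + 3) * (3 / 5) ^ t ≤ 3 := by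
  induction t with
  | zero => norm_num
  | succ t ih =>
    refine le_trans ?_ ih
    rw [pow_succ]
    have h1 : (0 : ℝ) < (3 / 5 : ℝ) ^ t := by positivity
    have h2 : (0 : ℝ) ≤ t := Nat.cast_nonneg _
    push_cast
    nlinarith [mul_nonneg h1.le h2]

theorem n2 (n : ℕ) : ((n : ℝ) + 11) * (2 * n + 21) * (3 / 5) ^ (n + 8) ≤ 4 := by
  induction n with
  | zero => norm_num
  | succ n ih =>
    refine le_trans ?_ ih
    have h1 : (0 : ℝ) < (3 / 5 : ℝ) ^ (n + 8) := by positivity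
    have h2 : (0 : ℝ) ≤ n := Nat.cast_nonneg _
    have h3 : (3 / 5 : ℝ) ^ (n + 1 + 8) = (3 / 5) ^ (n + 8) * (3 / 5) := by ring
    rw [h3]
    push_cast
    have h4 : ((n : ℝ) + 1 + 11) * (2 * (n + 1) + 21) * (3 / 5) ≤ (n + 11) * (2 * n + 21) := by
      nlinarith
    calc ((n : ℝ) + 1 + 11) * (2 * (n + 1) + 21) * ((3 / 5) ^ (n + 8) * (3 / 5))
        = (((n : ℝ) + 1 + 11) * (2 * (n + 1) + 21) * (3 / 5)) * (3 / 5) ^ (n + 8) := by ring
      _ ≤ _ := mul_le_mul_of_nonneg_right h4 h1.le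

theorem n3 (h : ℕ) : ((h : ℝ) + 12) * (2 * h + 20) * (3 / 5) ^ (h + 9) ≤ 4 := by
  induction h with
  | zero => norm_num
  | succ n ih =>
    refine le_trans ?_ ih
    have h1 : (0 : ℝ) < (3 / 5 : ℝ) ^ (n + 9) := by positivity
    have h2 : (0 : ℝ) ≤ n := Nat.cast_nonneg _
    have h3 : (3 / 5 : ℝ) ^ (n + 1 + 9) = (3 / 5) ^ (n + 9) * (3 / 5) := by ring
    rw [h3]
    push_cast
    have h4 : ((n : ℝ) + 1 + 12) * (2 * (n + 1) + 20) * (3 / 5) ≤ (n + 12) * (2 * n + 20) := by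
      nlinarith
    calc ((n : ℝ) + 1 + 12) * (2 * (n + 1) + 20) * ((3 / 5) ^ (n + 9) * (3 / 5))
        = (((n : ℝ) + 1 + 12) * (2 * (n + 1) + 20) * (3 / 5)) * (3 / 5) ^ (n + 9) := by ring
      _ ≤ _ := mul_le_mul_of_nonneg_right h4 h1.le

theorem n4 (h u : ℕ) : ((h : ℝ) + u + 3) * (2 / 3) ^ u ≤ h + 3 := by
  induction u with
  | zero => simp
  | succ u ih =>
    refine le_trans ?_ ih
    rw [pow_succ]
    have h1 : (0 : ℝ) < (2 / 3 : ℝ) ^ u := by positivity
    have h2 : (0 : ℝ) ≤ u := Nat.cast_nonneg _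
    have h3 : (0 : ℝ) ≤ h := Nat.cast_nonneg _
    push_cast
    nlinarith [mul_nonneg h1.le h2, mul_nonneg h1.le h3]

theorem half_pow (s : ℕ) (hs : 2 ≤ s) : (1 / 2 : ℝ) ^ s ≤ 1 / 4 := by
  have := pow_le_pow_of_le_one (by norm_num : (0 : ℝ) ≤ 1 / 2) (by norm_num) hs
  norm_num at this ⊢
  exact this

theorem half_pow' (s : ℕ) (hs : 2 ≤ s) : (1 / 2 : ℝ) ^ s ≤ 1 / 4 * (3 / 5) ^ (s - 2) := by
  obtain ⟨r, rfl⟩ := Nat.exists_eq_add_of_le hs
  rw [Nat.add_sub_cancel_left, pow_add]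
  have h := pow_le_pow_left₀ (by norm_num : (0 : ℝ) ≤ 1 / 2) (by norm_num : (1 / 2 : ℝ) ≤ 3 / 5) r
  have h2 : (1 / 2 : ℝ) ^ 2 = 1 / 4 := by norm_num
  rw [h2]
  linarith

/-- the case `2b > k` -/
theorem caseA {k t s : ℕ} (hs : 2 ≤ s) (ht : 2 * t ≤ k) :
    ((t : ℝ) + 3) * ((k + t).choose (t + s) : ℝ) ≤ ((2 * k + t).choose (t + s) : ℝ) := by
  have h1 := low k s t ht
  have hd : (0 : ℝ) ≤ ((2 * k + t).choose (t + s) : ℝ) := Nat.cast_nonneg _
  have h2 := n1 t
  have h3 := half_pow s hs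
  have h4 : (0 : ℝ) < (3 / 5 : ℝ) ^ t := by positivity
  have ht0 : (0 : ℝ) ≤ t := Nat.cast_nonneg _
  calc ((t : ℝ) + 3) * ((k + t).choose (t + s) : ℝ)
      ≤ ((t : ℝ) + 3) * ((3 / 5) ^ t * (1 / 2) ^ s * ((2 * k + t).choose (t + s) : ℝ)) :=
        mul_le_mul_of_nonneg_left h1 (by positivity)
    _ = (((t : ℝ) + 3) * (3 / 5) ^ t) * (1 / 2) ^ s * ((2 * k + t).choose (t + s) : ℝ) := by ring
    _ ≤ 3 * (1 / 4) * ((2 * k + t).choose (t + s) : ℝ) := by
        gcongr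
    _ ≤ _ := by linarith

/-- the case `2b ≤ k` -/
theorem caseB {k t s : ℕ} (hk : 19 ≤ k) (hs : 2 ≤ s) (hn : k ≤ 2 * (t + s)) (ht : t + 3 ≤ k) :
    ((t : ℝ) + 3) * (1 + k) * ((k + t).choose (t + s) : ℝ) ≤ ((2 * k + t).choose (t + s) : ℝ) := by
  have hd : (0 : ℝ) ≤ ((2 * k + t).choose (t + s) : ℝ) := Nat.cast_nonneg _
  have ht0 : (0 : ℝ) ≤ t := Nat.cast_nonneg _
  have hk0 : (0 : ℝ) ≤ k := Nat.cast_nonneg _
  rcases le_or_gt (2 * t) k with h | h
  · have h1 := low k s t h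
    obtain ⟨n, hn'⟩ := Nat.exists_eq_add_of_le (show 10 ≤ t + s by omega)
    have h2 := n2 n
    have h3 := half_pow' s hs
    have h4 : (3 / 5 : ℝ) ^ t * (1 / 2) ^ s ≤ 1 / 4 * (3 / 5) ^ (n + 8) := by
      have h5 : (3 / 5 : ℝ) ^ (n + 8) = (3 / 5) ^ t * (3 / 5) ^ (s - 2) := by
        rw [← pow_add]; congr 1; omega
      rw [h5]
      have h6 : (0 : ℝ) < (3 / 5 : ℝ) ^ t := by positivity
      nlinarith [mul_le_mul_of_nonneg_left h3 h6.le]
    have h5 : ((t : ℝ) + 3) * (1 + k) ≤ ((n : ℝ) + 11) * (2 * n + 21) := by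
      have a1 : (t : ℝ) + 3 ≤ n + 11 := by exact_mod_cast (by omega : t + 3 ≤ n + 11)
      have a2 : (1 : ℝ) + k ≤ 2 * n + 21 := by exact_mod_cast (by omega : 1 + k ≤ 2 * n + 21)
      exact mul_le_mul a1 a2 (by positivity) (by positivity)
    calc ((t : ℝ) + 3) * (1 + k) * ((k + t).choose (t + s) : ℝ)
        ≤ ((t : ℝ) + 3) * (1 + k) * ((3 / 5) ^ t * (1 / 2) ^ s *
            ((2 * k + t).choose (t + s) : ℝ)) := mul_le_mul_of_nonneg_left h1 (by positivity)
      _ = (((t : ℝ) + 3) * (1 + k)) * ((3 / 5) ^ t * (1 / 2) ^ s) *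
            ((2 * k + t).choose (t + s) : ℝ) := by ring
      _ ≤ (((n : ℝ) + 11) * (2 * n + 21)) * (1 / 4 * (3 / 5) ^ (n + 8)) *
            ((2 * k + t).choose (t + s) : ℝ) := by gcongr
      _ ≤ 1 * ((2 * k + t).choose (t + s) : ℝ) :=
          mul_le_mul_of_nonneg_right (by linarith) hd
      _ = _ := one_mul _
  · obtain ⟨h0, hh0⟩ : ∃ h0, h0 = k / 2 := ⟨_, rfl⟩
    obtain ⟨u, rfl⟩ := Nat.exists_eq_add_of_le (show h0 ≤ t by omega)
    have h1 := high k s h0 u (by omega) (by omega)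
    obtain ⟨r, rfl⟩ := Nat.exists_eq_add_of_le (show 9 ≤ h0 by omega)
    have h2 := n3 r
    have h3 := half_pow s hs
    have h4 := n4 (9 + r) u
    have h5 : (1 : ℝ) + k ≤ 2 * r + 20 := by exact_mod_cast (by omega : 1 + k ≤ 2 * r + 20)
    have h6 : (3 / 5 : ℝ) ^ (9 + r) = (3 / 5) ^ (r + 9) := by rw [add_comm]
    push_cast at h4 ⊢
    calc ((9 : ℝ) + r + u + 3) * (1 + k) * ((k + (9 + r + u)).choose (9 + r + u + s) : ℝ)
        ≤ ((9 : ℝ) + r + u + 3) * (1 + k) * ((2 / 3) ^ u * ((3 / 5) ^ (9 + r) * (1 / 2) ^ s) *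
            ((2 * k + (9 + r + u)).choose (9 + r + u + s) : ℝ)) :=
          mul_le_mul_of_nonneg_left h1 (by positivity)
      _ = ((((9 : ℝ) + r + u + 3) * (2 / 3) ^ u) * (1 + k)) * ((3 / 5) ^ (r + 9) * (1 / 2) ^ s) *
            ((2 * k + (9 + r + u)).choose (9 + r + u + s) : ℝ) := by rw [h6]; ring
      _ ≤ (((9 : ℝ) + r + 3) * (2 * r + 20)) * ((3 / 5) ^ (r + 9) * (1 / 4)) *
            ((2 * k + (9 + r + u)).choose (9 + r + u + s) : ℝ) := by
          gcongr
      _ ≤ 1 * ((2 * k + (9 + r + u)).choose (9 + r + u + s) : ℝ) := by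
          refine mul_le_mul_of_nonneg_right ?_ hd
          have h7 : ((9 : ℝ) + r + 3) * (2 * r + 20) * ((3 / 5) ^ (r + 9) * (1 / 4)) =
              ((r : ℝ) + 12) * (2 * r + 20) * (3 / 5) ^ (r + 9) / 4 := by ring
          rw [h7]
          linarith
      _ = _ := one_mul _

theorem vand (k s t : ℕ) : ∑ j ∈ Icc s (t + s), k.choose j * t.choose (j - s) =
    (k + t).choose (t + s) := by
  rw [Nat.add_choose_eq, Finset.Nat.sum_antidiagonal_eq_sum_range_succ_mk]
  have h1 : ∑ j ∈ Icc s (t + s), k.choose j * t.choose (j - s) =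
      ∑ j ∈ Icc s (t + s), k.choose j * t.choose (t + s - j) := by
    refine Finset.sum_congr rfl fun j hj => ?_
    rw [Finset.mem_Icc] at hj
    congr 1
    rw [← Nat.choose_symm (show j - s ≤ t by omega)]
    congr 1
    omega
  rw [h1]
  refine Finset.sum_subset (fun j hj => ?_) (fun j hj hj' => ?_)
  · rw [Finset.mem_Icc] at hj
    rw [Finset.mem_range]
    omega
  · rw [Finset.mem_range] at hj
    rw [Finset.mem_Icc] at hj'
    rw [Nat.choose_eq_zero_of_lt (show t < t + s - j by omega), mul_zero]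

end G1aux

open G1aux in
theorem good_large {k : ℕ} (hk : 19 ≤ k) : Good k := by
  intro s b m hs hb hm hsum
  obtain ⟨t, ht⟩ : ∃ t, k = t + s + b := ⟨k - s - b, by omega⟩
  have e1 : k - b = t + s := by omega
  have e2 : k - s - b = t := by omega
  have e3 : 3 * k - s - b = 2 * k + t := by omega
  rw [e1, e2, e3]
  have hmt : m ≤ t + 3 := by omega
  by_cases hbk : 2 * b ≤ k
  · have h1 : ∑ j ∈ Icc s (t + s), (1 + chL k j) * (k.choose j * t.choose (j - s)) ≤
        (1 + k) * (k + t).choose (t + s) := by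
      rw [← vand k s t, Finset.mul_sum]
      refine Finset.sum_le_sum fun j _ => Nat.mul_le_mul_right _ ?_
      unfold chL
      split_ifs <;> omega
    have h2 := caseB hk hs (show k ≤ 2 * (t + s) by omega) (show t + 3 ≤ k by omega)
    have h3 : (t + 3) * (1 + k) * (k + t).choose (t + s) ≤ (2 * k + t).choose (t + s) := by
      exact_mod_cast h2
    calc m * ∑ j ∈ Icc s (t + s), (1 + chL k j) * (k.choose j * t.choose (j - s))
        ≤ (t + 3) * ((1 + k) * (k + t).choose (t + s)) := Nat.mul_le_mul hmt h1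
      _ = (t + 3) * (1 + k) * (k + t).choose (t + s) := by ring
      _ ≤ _ := h3
  · have h1 : ∑ j ∈ Icc s (t + s), (1 + chL k j) * (k.choose j * t.choose (j - s)) =
        (k + t).choose (t + s) := by
      rw [← vand k s t]
      refine Finset.sum_congr rfl fun j hj => ?_
      rw [Finset.mem_Icc] at hj
      have : chL k j = 0 := by
        unfold chL
        rw [if_neg]
        omega
      rw [this, add_zero, one_mul]
    have h2 := caseA (k := k) (t := t) (s := s) hs (by omega)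
    have h3 : (t + 3) * (k + t).choose (t + s) ≤ (2 * k + t).choose (t + s) := by
      exact_mod_cast h2
    rw [h1]
    exact (Nat.mul_le_mul_right _ hmt).trans h3

end Pool.Agent.K4H58.XK
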